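import Mathlib
import Pool.Agent.Q165.HomDef
import Pool.Agent.Q165.HomKey

set_option autoImplicit false

namespace Pool.Agent.Results.MP_510a26_co.AllHomogeneities

open Q165.HomLS

/-- For every integer `h ≥ 0` there are two orthogonal latin squares of a common order, both
`h`-homogeneous. -/
theorem result : pairSet = Set.univ := pairSet_eq

end Pool.Agent.Results.MP_510a26_co.AllHomogeneities
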